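import Pool.Agent.Q105.SubT.Final

set_option autoImplicit false

/-!
# Contracting an edge can increase the mean subtree order
-/

open SimpleGraph Q105.SubT

namespace Pool.Agent.Results.MP_e83d06_co.Contraction

/-- The mean subtree order: the average number of vertices of a subgraph of `G` that is a tree. -/
noncomputable def meanSubtreeOrder {V : Type} (G : SimpleGraph V) : ℚ :=
  (∑ᶠ T ∈ {T : G.Subgraph | T.coe.IsTree}, (T.verts.ncard : ℚ)) /
    ({T : G.Subgraph | T.coe.IsTree}.ncard : ℚ)

/-- The simple graph obtained from `G` by contracting the edge `uv`; the merged vertex is `u`. -/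
def contract {V : Type} (G : SimpleGraph V) (u v : V) : SimpleGraph {x : V // x ≠ v} where
  Adj x y := x ≠ y ∧ (G.Adj x y ∨ ((x : V) = u ∧ G.Adj v y) ∨ ((y : V) = u ∧ G.Adj x v))
  symm := ⟨fun _ _ h => ⟨h.1.symm, h.2.elim (fun h => Or.inl h.symm)
    (fun h => h.elim (fun h => Or.inr (Or.inr ⟨h.1, h.2.symm⟩))
      (fun h => Or.inr (Or.inl ⟨h.1, h.2.symm⟩)))⟩⟩
  loopless := ⟨fun _ h => h.1 rfl⟩

/-- the new pendant vertex -/
def leaf (V : Type) : V ⊕ {x : Option (Fin 1) // x ≠ none} := Sum.inr ⟨some 0, by simp⟩

lemma ne_leaf {V : Type} (x : V) : (Sum.inl x : V ⊕ {x : Option (Fin 1) // x ≠ none}) ≠ leaf V := by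
  unfold leaf; simp

lemma eq_inl {V : Type} (x : V ⊕ {x : Option (Fin 1) // x ≠ none}) (h : x ≠ leaf V) :
    ∃ y, x = Sum.inl y := by
  rcases x with y | ⟨_ | i, hi⟩
  · exact ⟨y, rfl⟩
  · exact absurd rfl hi
  · exfalso
    apply h
    have : i = 0 := Subsingleton.elim _ _
    subst this
    rfl

lemma leaf_adj {V : Type} (G : SimpleGraph V) (w y : V)
    (h : (glueG G (star 1) w none).Adj (leaf V) (Sum.inl y)) : y = w := by
  rcases h with ⟨a, b, _, ha, _⟩ | ⟨a, b, hab, ha, hb⟩
  · exact absurd ha (ne_leaf a)
  · exact (inc2_inl w none b y hb.symm).1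

/-- Contracting the pendant edge gives the graph back. -/
noncomputable def contractIso {V : Type} (G : SimpleGraph V) (w : V) :
    G ≃g contract (glueG G (star 1) w none) (Sum.inl w) (leaf V) where
  toEquiv := Equiv.ofBijective (fun x => ⟨Sum.inl x, ne_leaf x⟩) (by
    constructor
    · intro x y h
      exact Sum.inl_injective (congrArg Subtype.val h)
    · rintro ⟨x, hx⟩
      obtain ⟨y, rfl⟩ := eq_inl x hx
      exact ⟨y, rfl⟩)
  map_rel_iff' := by
    intro x y
    constructor
    · rintro ⟨hne, h | h | h⟩
      · exact (emb1 G (star 1) w none).map_adj_iff.1 h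
      · have h1 : x = w := Sum.inl_injective h.1
        have h2 := leaf_adj G w y h.2
        exact absurd (by rw [h1, h2]) hne
      · have h1 : y = w := Sum.inl_injective h.1
        have h2 := leaf_adj G w x h.2.symm
        exact absurd (by rw [h1, h2]) hne
    · intro h
      refine ⟨?_, Or.inl ((emb1 G (star 1) w none).map_adj_iff.2 h)⟩
      intro he
      exact h.ne (Sum.inl_injective (congrArg Subtype.val he))

lemma cyc_connected (g : ℕ) [NeZero g] (hg : 3 ≤ g) : (cyc g).Connected := by
  have := top_connected (g := g) hg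
  rw [Subgraph.connected_iff'] at this
  exact (Subgraph.topIso.connected_iff).1 this

/-- There are a finite connected graph `G` and an edge `uv` of `G` with
`μ(G) < μ(G / uv)`. -/
theorem result : ∃ (V : Type) (_ : Finite V) (G : SimpleGraph V) (u v : V),
    G.Connected ∧ G.Adj u v ∧ meanSubtreeOrder G < meanSubtreeOrder (contract G u v) := by
  refine ⟨_, inferInstance, GP 100 300 50 64, Sum.inl (wv 100 300 50 64), leaf _, ?_, ?_, ?_⟩
  · apply glueG_connected
    · apply glueG_connected
      · apply glueG_connected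
        · exact cyc_connected _ (by norm_num)
        · exact connected_starGraph _
      · exact connected_starGraph _
    · exact connected_starGraph _
  · refine Or.inr ⟨none, some 0, ?_, inc2_root _ _, inc2_ne _ _ _ _⟩
    rw [starGraph_adj]; simp
  · unfold meanSubtreeOrder
    rw [mean_true, mean_true]
    have h1 := S_iso (contractIso (HB (100 + 300) 100 64) (wv 100 300 50 64)) (fun _ => 1) true
    have h2 := S_iso (contractIso (HB (100 + 300) 100 64) (wv 100 300 50 64)) (fun n => (n : ℚ)) true
    have e1 : cnt true (contract (GP 100 300 50 64) (Sum.inl (wv 100 300 50 64)) (leaf _)) ∅ =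
        cnt true (HB (100 + 300) 100 64) ∅ := h1.symm
    have e2 : tot true (contract (GP 100 300 50 64) (Sum.inl (wv 100 300 50 64)) (leaf _)) ∅ =
        tot true (HB (100 + 300) 100 64) ∅ := h2.symm
    rw [e1, e2]
    apply pendant_lt 100 300 50 64 <;>
      norm_num [al, ta, rc, rt, EE, FF]

end Pool.Agent.Results.MP_e83d06_co.Contraction
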